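import Pool.Agent.H90.Semi

/-!
# MP_395f85_co, Q1: heavy directed cycles in semicomplete digraphs

The Bollobás–Scott problem for semicomplete digraphs (in particular for tournaments), in a form
that assumes only the out-weights to be at least `1` and assumes no strong connectivity.
-/

set_option autoImplicit false

namespace Pool.Agent.Results.MP_395f85_co.Semicomplete

/-- Let `w u v` be the weight of the arc from `u` to `v`, where `w u v = 0` means that there is no
such arc. If any two distinct vertices are joined by an arc in at least one direction and every
vertex has weighted outdegree at least `1`, then some directed cycle (of length `k + 2`, with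
distinct vertices `f 0, f 1, …`) has weight at least `1`. -/
theorem result {V : Type} [Fintype V] [Nonempty V] (w : V → V → ℝ)
    (hw : ∀ u v, 0 ≤ w u v) (hdiag : ∀ v, w v v = 0)
    (hsemi : ∀ u v, u ≠ v → 0 < w u v ∨ 0 < w v u) (hout : ∀ v, 1 ≤ ∑ u, w v u) :
    ∃ (k : ℕ) (f : Fin (k + 2) → V), Function.Injective f ∧
      (∀ i, 0 < w (f i) (f (finRotate (k + 2) i))) ∧
      1 ≤ ∑ i, w (f i) (f (finRotate (k + 2) i)) :=
  Pool.Agent.H90.semicomplete w hw hdiag hsemi hout

end Pool.Agent.Results.MP_395f85_co.Semicomplete
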